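import Pool.Agent.PFD.StmtsD4

/-! Squad PFD, row UNM: units modulo `π` are units. -/

noncomputable section

namespace Pool.Agent.PFD.D4.H30

open Pool.Agent.PFD.D2

theorem unm (hung : UngStmt) : UnmStmt := by
  intro R F A A1 _ _ c _ _ _ _ _ _ fb a ha
  obtain ⟨b', h1, h2⟩ := isUnit_iff_exists.1 ha
  obtain ⟨b, rfl⟩ := fb.surj b'
  have e1 : ∃ y, a * b - 1 = c.π • y := by
    apply fb.ker
    rw [map_sub, map_mul, h1, map_one, sub_self]
  have e2 : ∃ y, b * a - 1 = c.π • y := by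
    apply fb.ker
    rw [map_sub, map_mul, h2, map_one, sub_self]
  obtain ⟨y1, hy1⟩ := e1
  obtain ⟨y2, hy2⟩ := e2
  have s1 := (hung R F A1 c (LinearMap.mulLeft R (a * b)) (by
    intro x
    refine ⟨y1 * x, ?_⟩
    have h3 : a * b * x - x = (a * b - 1) * x := by rw [sub_mul, one_mul]
    show a * b * x - x = _
    rw [h3, hy1, smul_mul_assoc])).2 1
  have s2 := (hung R F A1 c (LinearMap.mulRight R (b * a)) (by
    intro x
    refine ⟨x * y2, ?_⟩
    have h3 : x * (b * a) - x = x * (b * a - 1) := by rw [mul_sub, mul_one]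
    show x * (b * a) - x = _
    rw [h3, hy2, mul_smul_comm])).2 1
  obtain ⟨z, hz⟩ := s1
  obtain ⟨w, hw⟩ := s2
  have hz' : a * (b * z) = 1 := by
    rw [← mul_assoc]
    exact hz
  have hw' : (w * b) * a = 1 := by
    rw [mul_assoc]
    exact hw
  have h5 : w * b = b * z := left_inv_eq_right_inv hw' hz'
  exact isUnit_iff_exists.2 ⟨b * z, hz', by rw [← h5]; exact hw'⟩

end Pool.Agent.PFD.D4.H30
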