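import Pool.Agent.PFD.StmtsD6b

/-! Squad PFD, row COT: `Ev 1` is a unit. -/

open scoped BigOperators

noncomputable section

namespace Pool.Agent.PFD.D6.H30

open Pool.Agent.PFC
open Pool.Agent.PFC.B5a (FvtStmt)

theorem cot : CotStmt := by
  intro hFVT hCHS F V E A _ _ _ _ _ _ _ _ ℓ _ φ W α n n' c lam S hctf hunt hsym hlam hTg hαS hnS
  classical
  have hℓ : Fact ℓ.Prime := ⟨hctf.pr⟩
  set c0 : A := Ev F (gg α n) (gg' α n') lam 1 with hc0
  have hc0s : c0 = ∑ p, lam (gg' α n' p) • gg α n p := by
    rw [hc0]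
    unfold Ev
    refine Finset.sum_congr rfl ?_
    intro p _
    rw [mul_one]
  have hgS : ∀ p, gg α n p ∈ S := fun p => S.mul_mem (hαS _) (hnS _)
  have hc0S : c0 ∈ S := by
    rw [hc0s]
    exact S.sum_mem (fun p _ => S.smul_mem (hgS p) _)
  have hcom : ∀ s ∈ S, s * c0 = c0 * s := by
    intro s hs
    have h1 := hTg.cs1 A ((LinearMap.lsmul F A) ∘ₗ lam) s hs
    have h2 := hTg.cs2 A ((LinearMap.lsmul F A) ∘ₗ lam) s hs
    simp only [LinearMap.comp_apply, LinearMap.lsmul_apply] at h1 h2
    rw [hc0s, Finset.mul_sum, Finset.sum_mul]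
    have h3 : ∑ p, s * lam (gg' α n' p) • gg α n p =
        ∑ p, lam (gg' α n' p) • (s * gg α n p) := by
      refine Finset.sum_congr rfl ?_
      intro p _
      rw [mul_smul_comm]
    have h4 : ∑ p, lam (gg' α n' p) • gg α n p * s =
        ∑ p, lam (gg' α n' p) • (gg α n p * s) := by
      refine Finset.sum_congr rfl ?_
      intro p _
      rw [smul_mul_assoc]
    rw [h3, h4, ← h1, ← h2]
    refine Finset.sum_congr rfl ?_
    intro p _
    rw [hsym]
  have hinj : ∀ b : A, c0 * b = 0 → b = 0 := by
    by_contra hcon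
    push Not at hcon
    obtain ⟨b0, hb0, hb0'⟩ := hcon
    let ρ : V →* (A →ₗ[F] A) :=
      { toFun := fun w => LinearMap.mulLeft F (α w)
        map_one' := by
          ext x
          simp
        map_mul' := by
          intro x y
          ext z
          simp }
    let N : Submodule F A := LinearMap.ker (LinearMap.mulLeft F c0)
    have hN : N ≠ ⊥ := by
      intro h
      have h1 : b0 ∈ N := hb0
      rw [h] at h1
      exact hb0' ((Submodule.mem_bot F).1 h1)
    obtain ⟨b, hbN, hb1, hb2⟩ := hFVT ℓ F V A ρ N hctf.pg (by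
      intro h m hm
      have hm' : c0 * m = 0 := hm
      show c0 * (α h * m) = 0
      rw [← mul_assoc, ← hcom _ (hαS h), mul_assoc, hm', mul_zero]) hN
    have hfix : ∀ w, α w * b = b := fun w => hb2 w (Subgroup.mem_top _)
    have hcb : c0 * b = 0 := hbN
    have hgb : ∀ v e, gg α n (v, e) * b = n e * b := by
      intro v e
      have h1 := hunt.tw e (φ e⁻¹ v)
      have h2 : φ e (φ e⁻¹ v) = v := by
        rw [← MulAut.mul_apply, ← map_mul, mul_inv_cancel, map_one, MulAut.one_apply]
      rw [h2] at h1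
      show α v * n e * b = n e * b
      rw [← h1, mul_assoc, hfix]
    have hn1 : n' 1 = 1 := by
      have h1 := hunt.li 1
      rw [hunt.one, mul_one] at h1
      exact h1
    have hsum : c0 * b = lam (∑ u, α u) • b := by
      rw [hc0s, Finset.sum_mul, Fintype.sum_prod_type, Finset.sum_comm,
        Finset.sum_eq_single (1 : E)]
      · have h1 : ∀ v, lam (gg' α n' (v, (1 : E))) • gg α n (v, (1 : E)) * b =
            lam (α v⁻¹) • b := by
          intro v
          rw [smul_mul_assoc, hgb, hunt.one, one_mul]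
          show lam (n' 1 * α v⁻¹) • b = _
          rw [hn1, one_mul]
        rw [Finset.sum_congr rfl (fun v _ => h1 v), ← Finset.sum_smul, map_sum]
        congr 1
        exact Fintype.sum_equiv (Equiv.inv V) _ _ (fun v => rfl)
      · intro e _ he
        have h1 : ∀ v, lam (gg' α n' (v, e)) • gg α n (v, e) * b =
            lam (α v⁻¹ * n' e) • (n e * b) := by
          intro v
          rw [smul_mul_assoc, hgb]
          show lam (n' e * α v⁻¹) • (n e * b) = _
          rw [hsym]
        rw [Finset.sum_congr rfl (fun v _ => h1 v), ← Finset.sum_smul]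
        have h2 : ∑ v, lam (α v⁻¹ * n' e) = ∑ w, lam (α w * n' e) :=
          Fintype.sum_equiv (Equiv.inv V) _ _ (fun v => rfl)
        rw [h2, (hCHS F V E A ℓ φ W α n n' c lam hctf hunt hsym e he).1, zero_smul]
      · intro h
        exact absurd (Finset.mem_univ _) h
    rw [hcb] at hsum
    rcases smul_eq_zero.1 hsum.symm with h | h
    · exact hlam h
    · exact hb1 h
  -- the inverse
  let T : Subalgebra.toSubmodule S →ₗ[F] Subalgebra.toSubmodule S :=
    (LinearMap.mulLeft F c0).restrict (fun x hx => S.mul_mem hc0S hx)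
  have hTi : Function.Injective T := by
    intro x y hxy
    have h1 : c0 * (x : A) = c0 * (y : A) := congrArg Subtype.val hxy
    have h2 : c0 * ((x : A) - y) = 0 := by rw [mul_sub, h1, sub_self]
    exact Subtype.ext (sub_eq_zero.1 (hinj _ h2))
  have hTs : Function.Surjective T := LinearMap.surjective_of_injective hTi
  obtain ⟨c', hc'⟩ := hTs ⟨1, S.one_mem⟩
  have hr : c0 * (c' : A) = 1 := congrArg Subtype.val hc'
  refine ⟨c', c'.2, ?_, hr, ?_⟩
  · have h2 : c0 * ((c' : A) * c0 - 1) = 0 := by
      rw [mul_sub, ← mul_assoc, hr, one_mul, mul_one, sub_self]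
    exact sub_eq_zero.1 (hinj _ h2)
  · intro s hs
    have h2 : c0 * ((c' : A) * s - s * c') = 0 := by
      rw [mul_sub, ← mul_assoc, hr, one_mul, ← mul_assoc, ← hcom s hs, mul_assoc, hr, mul_one,
        sub_self]
    exact sub_eq_zero.1 (hinj _ h2)

end Pool.Agent.PFD.D6.H30
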