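import Pool.Agent.PFD.StmtsD2b

/-! Squad PFD, row LFB: balanced maps modulo `p` lift. -/

open scoped BigOperators

noncomputable section

namespace Pool.Agent.PFD.D2b.H30

open MulOpposite
open Pool.Agent.PFC.B1 (BiM FS)
open Pool.Agent.PFD.D2

section md

variable {R N M : Type} [CommRing R] [AddCommGroup N] [Module R N] [AddCommGroup M] [Module R M]

/-- congruence modulo `p` -/
def Md (p : R) (x y : N) : Prop := ∃ n, x - y = p • n

theorem Md.rfl' {p : R} {x : N} : Md p x x := ⟨0, by rw [sub_self, smul_zero]⟩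

theorem Md.symm {p : R} {x y : N} (h : Md p x y) : Md p y x := by
  obtain ⟨n, hn⟩ := h
  exact ⟨-n, by rw [smul_neg, ← hn, neg_sub]⟩

theorem Md.trans {p : R} {x y z : N} (h : Md p x y) (h' : Md p y z) : Md p x z := by
  obtain ⟨n, hn⟩ := h
  obtain ⟨m, hm⟩ := h'
  exact ⟨n + m, by rw [smul_add, ← hn, ← hm, sub_add_sub_cancel]⟩

theorem Md.map {p : R} {x y : N} (h : Md p x y) (f : N →ₗ[R] M) : Md p (f x) (f y) := by
  obtain ⟨n, hn⟩ := h
  exact ⟨f n, by rw [← map_sub, hn, map_smul]⟩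

theorem Md.sum {p : R} {κ : Type} (s : Finset κ) {f g : κ → N} (h : ∀ k ∈ s, Md p (f k) (g k)) :
    Md p (∑ k ∈ s, f k) (∑ k ∈ s, g k) := by
  classical
  induction s using Finset.induction_on with
  | empty => exact Md.rfl'
  | insert a s ha ih =>
    rw [Finset.sum_insert ha, Finset.sum_insert ha]
    obtain ⟨n, hn⟩ := h a (Finset.mem_insert_self _ _)
    obtain ⟨m, hm⟩ := ih (fun k hk => h k (Finset.mem_insert_of_mem hk))
    exact ⟨n + m, by rw [smul_add, ← hn, ← hm]; abel⟩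

end md

/-- the action of `W × W` on `Ω × Ω × T` -/
@[reducible] def act3 {W Ω T : Type} [CommGroup W] [MulAction W Ω] [MulAction (W × W) T] :
    MulAction (W × W) (Ω × Ω × T) where
  smul := fun w x => (w.1 • x.1, w.2 • x.2.1, w • x.2.2)
  one_smul := fun x => by
    show ((1 : W) • x.1, (1 : W) • x.2.1, (1 : W × W) • x.2.2) = x
    rw [one_smul, one_smul, one_smul]
  mul_smul := fun v w x => by
    show ((v.1 * w.1) • x.1, (v.2 * w.2) • x.2.1, (v * w) • x.2.2) =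
      (v.1 • w.1 • x.1, v.2 • w.2 • x.2.1, v • w • x.2.2)
    rw [mul_smul, mul_smul, mul_smul]

section

variable {R Γ W N : Type} [CommRing R] [Ring Γ] [Algebra R Γ] [CommGroup W]
  [AddCommGroup N] [Module R N]

theorem rm_mul (B : BiM R Γ N) (x y : Γ) (n : N) :
    B.rm (op (x * y)) n = B.rm (op y) (B.rm (op x) n) := by
  rw [op_mul, map_mul]
  rfl

theorem lm_mul (B : BiM R Γ N) (x y : Γ) (n : N) :
    B.lm (x * y) n = B.lm x (B.lm y n) := by
  rw [map_mul]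
  rfl

theorem wrp_apply (om : W →* Γ) (B : BiM R Γ N) (u v : W) (n : N) :
    wrp om B (u, v) n = B.lm (om u) (B.rm (op (om v⁻¹)) n) := rfl

theorem om_inv (om : W →* Γ) (u : W) : om u⁻¹ * om u = 1 := by
  rw [← map_mul, inv_mul_cancel, map_one]

theorem om_inv' (om : W →* Γ) (u : W) : om u * om u⁻¹ = 1 := by
  rw [← map_mul, mul_inv_cancel, map_one]

end

theorem lfb (heqf : EqfStmt) (hing : IngStmt) (hinb : InbStmt) (hfpg : FpgStmt) : LfbStmt := by
  classical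
  intro R Γ W I Ω N _ _ _ _ _ _ _ _ D BX hX _ _ BN p hF β hβ
  obtain ⟨aT, c, -, -, hb, hc, hsum⟩ := hfpg R Γ W I D
  obtain ⟨ε, hε, hdec, -⟩ := hing R Γ W I Ω D BX hX
  obtain ⟨hβ1, hβ2, hβ3⟩ := hβ
  let bt : I × W → Γ := fun t => D.cf t.1 * D.om t.2
  let m : Ω × Ω × (I × W) → N := fun x => β (BX.rm (op (bt x.2.2)) (ε x.1)) (ε x.2.1)
  -- the element `ε (u ω)`
  have hε1 : ∀ u ω, BX.rm (op (D.om u)) (ε (u • ω)) = BX.lm (D.om u) (ε ω) := by
    intro u ω
    rw [hε u ω, BX.comm, ← rm_mul, om_inv, op_one, map_one]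
    rfl
  have hε2 : ∀ v ω, BX.lm (D.om v⁻¹) (ε (v • ω)) = BX.rm (op (D.om v⁻¹)) (ε ω) := by
    intro v ω
    rw [hε v ω, ← lm_mul, om_inv, map_one]
    rfl
  have hm : ∀ (g : W × W) (x : Ω × Ω × (I × W)), Md p (m ((act3 (Ω := Ω) (T := I × W)).smul g x))
      (wrp D.om BN g (m x)) := by
    rintro ⟨u, v⟩ ⟨ω, ω', t⟩
    show Md p (β (BX.rm (op (bt ((u, v) • t))) (ε (u • ω))) (ε (v • ω')))
      (BN.lm (D.om u) (BN.rm (op (D.om v⁻¹)) (β (BX.rm (op (bt t)) (ε ω)) (ε ω'))))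
    have h1 : bt ((u, v) • t) = D.om u * (bt t * D.om v⁻¹) := hb (u, v) t
    have h2 : BX.rm (op (bt ((u, v) • t))) (ε (u • ω)) =
        BX.lm (D.om u) (BX.rm (op (D.om v⁻¹)) (BX.rm (op (bt t)) (ε ω))) := by
      rw [h1, rm_mul, hε1, rm_mul, ← BX.comm, ← BX.comm]
    rw [h2]
    refine Md.trans (hβ1 _ _ _) ?_
    refine Md.map ?_ (BN.lm (D.om u))
    refine Md.trans (hβ2 _ _ _) ?_
    rw [hε2]
    exact hβ3 _ _ _
  obtain ⟨m', hm1, hm2⟩ := @heqf R (W × W) N (Ω × Ω × (I × W)) _ _ _ _ act3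
    (wrp D.om BN) p hF m hm
  let μ : Ω → Ω → (Γ →ₗ[R] N) := fun ω ω' => ∑ t, (c t).smulRight (m' (ω, ω', t))
  have hμ : ∀ ω ω' γ, μ ω ω' γ = ∑ t, c t γ • m' (ω, ω', t) := by
    intro ω ω' γ
    show (∑ t, (c t).smulRight (m' (ω, ω', t))) γ = _
    rw [LinearMap.sum_apply]
    rfl
  have hμ2 : ∀ ω ω' γ, Md p (μ ω ω' γ) (β (BX.rm (op γ) (ε ω)) (ε ω')) := by
    intro ω ω' γ
    rw [hμ]
    have h1 : β (BX.rm (op γ) (ε ω)) (ε ω') =
        ∑ t, c t γ • β (BX.rm (op (bt t)) (ε ω)) (ε ω') := by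
      have h2 : op γ = ∑ t, c t γ • op (bt t) := by
        conv_lhs => rw [← hsum γ]
        rw [← MulOpposite.coe_opLinearEquiv R, map_sum]
        refine Finset.sum_congr rfl ?_
        intro t _
        rw [map_smul]
      rw [h2, map_sum, LinearMap.sum_apply, map_sum, LinearMap.sum_apply]
      refine Finset.sum_congr rfl ?_
      intro t _
      rw [map_smul, LinearMap.smul_apply, map_smul, LinearMap.smul_apply]
    rw [h1]
    refine Md.sum _ ?_
    intro t _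
    exact Md.map (hm2 (ω, ω', t)) (LinearMap.lsmul R N (c t γ))
  obtain ⟨β', hβ', hform⟩ := hinb R Γ W I Ω N D BX hX BN μ (by
    intro u v ω ω' γ
    rw [hμ, hμ, map_sum]
    rw [← Equiv.sum_comp (MulAction.toPerm (u, v) : Equiv.Perm (I × W))]
    refine Finset.sum_congr rfl ?_
    intro t _
    rw [MulAction.toPerm_apply]
    have h1 : c ((u, v) • t) (D.om u * γ * D.om v⁻¹) = c t γ := by
      have h2 := hc (u, v) t γ
      have h3 : wrp D.om (regB R Γ) (u, v) γ = D.om u * γ * D.om v⁻¹ := by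
        show D.om u * (γ * D.om v⁻¹) = _
        rw [mul_assoc]
      rw [h3] at h2
      exact h2
    have h2 : m' (u • ω, v • ω', (u, v) • t) = wrp D.om BN (u, v) (m' (ω, ω', t)) :=
      hm1 (u, v) (ω, ω', t)
    rw [h1, h2, map_smul])
  refine ⟨β', hβ', ?_⟩
  intro f f'
  rw [hform]
  -- the value of `β`
  have h1 : β f f' = ∑ i, ∑ ω, ∑ i', ∑ ω',
      β (BX.lm (D.cf i) (BX.rm (op (f (i, ω))) (ε ω)))
        (BX.lm (D.cf i') (BX.rm (op (f' (i', ω'))) (ε ω'))) := by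
    have h1a : ∀ y, β f y = ∑ i, ∑ ω, β (BX.lm (D.cf i) (BX.rm (op (f (i, ω))) (ε ω))) y := by
      intro y
      conv_lhs => rw [← hdec f]
      simp only [map_sum, LinearMap.sum_apply]
    have h1b : ∀ x, β x f' =
        ∑ i', ∑ ω', β x (BX.lm (D.cf i') (BX.rm (op (f' (i', ω'))) (ε ω'))) := by
      intro x
      conv_lhs => rw [← hdec f']
      simp only [map_sum]
    rw [h1a]
    exact Finset.sum_congr rfl (fun i _ => Finset.sum_congr rfl (fun ω _ => h1b _))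
  rw [h1]
  refine Md.sum _ (fun i _ => Md.sum _ (fun ω _ => Md.sum _ (fun i' _ => Md.sum _
    (fun ω' _ => ?_))))
  have h2 : Md p (β (BX.lm (D.cf i) (BX.rm (op (f (i, ω))) (ε ω)))
        (BX.lm (D.cf i') (BX.rm (op (f' (i', ω'))) (ε ω'))))
      (BN.lm (D.cf i) (BN.rm (op (f' (i', ω')))
        (β (BX.rm (op (f (i, ω) * D.cf i')) (ε ω)) (ε ω')))) := by
    refine Md.trans (hβ1 _ _ _) ?_
    refine Md.map ?_ (BN.lm (D.cf i))
    refine Md.trans (Md.symm (hβ2 _ _ _)) ?_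
    rw [← rm_mul]
    exact hβ3 _ _ _
  refine Md.trans ?_ (Md.symm h2)
  refine Md.map ?_ (BN.lm (D.cf i))
  refine Md.map ?_ (BN.rm (op (f' (i', ω'))))
  exact hμ2 _ _ _

end Pool.Agent.PFD.D2b.H30
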